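import Pool.Agent.H96.KX.Targets

/-! # Fixed width linear programs: the formula of a table (row FRM) -/

namespace Pool.Agent.H58.KX

open Finset Pool.Agent.H96.KX
open Pool.Agent.H1.LP (Clause viol Relax Loc Sys Agree supp ip kk)

/-- the inner product only depends on the blocks in the support -/
theorem ip_congr {p B b : ℕ} (l : Fin B → ZMod p) (T : Finset (Fin B)) (hl : supp l ⊆ T)
    (al : Fin B → (Fin b → Bool) → ZMod p) (v w : Fin B → Fin b → Bool) (h : ∀ j ∈ T, v j = w j) :
    ip l (H1.LP.val al v) = ip l (H1.LP.val al w) := by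
  unfold ip H1.LP.val
  refine sum_congr rfl fun j _ => ?_
  by_cases hj : j ∈ T
  · rw [h j hj]
  · have : l j = 0 := by
      by_contra hne
      exact hj (hl (by simp [supp, hne]))
    rw [this, zero_mul, zero_mul]

theorem pf_FRM : S_FRM := by
  classical
  intro p B R b n _ T A be al dec cl hA hcl
  obtain ⟨G, hGd⟩ : ∃ G : Finset (Fin R × (Fin B → Fin b → Bool)), G =
    (prs (b := b) T).filter (fun q => ip (A q.1) (H1.LP.val al q.2) ≠ be q.1) := ⟨_, rfl⟩
  let e : Fin G.card ≃ G := G.equivFin.symm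
  have hG0 : ∀ q ∈ G, q ∈ prs (b := b) T := by
    intro q hq
    rw [hGd] at hq
    exact (mem_filter.mp hq).1
  have hG : ∀ q : G, (∀ j, j ∉ T q.1.1 → q.1.2 j = fun _ => false) ∧
      ip (A q.1.1) (H1.LP.val al q.1.2) ≠ be q.1.1 := by
    rintro ⟨q, hq⟩
    rw [hGd] at hq
    have h1 := mem_filter.mp hq
    exact ⟨(mem_filter.mp h1.1).2, h1.2⟩
  refine ⟨G.card, fun a => cl (T (e a).1.1) (e a).1.2, ?_, ?_, ?_, ?_⟩
  · rw [hGd]
    exact card_filter_le _ _
  · intro a
    exact ⟨(e a).1, hG0 _ (e a).2, rfl⟩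
  · intro g
    rw [← hGd]
    have h1 : ∑ a : Fin G.card, g (cl (T (e a).1.1) (e a).1.2) =
        ∑ q : G, g (cl (T q.1.1) q.1.2) :=
      Equiv.sum_comp e (fun q : G => g (cl (T q.1.1) q.1.2))
    rw [h1]
    exact sum_coe_sort G (fun q => g (cl (T q.1) q.2))
  · intro y
    unfold viol
    refine card_bij (fun a _ => (e a).1.1) ?_ ?_ ?_
    · intro a ha
      have h1 := (mem_filter.mp ha).2
      rw [hcl, not_not] at h1
      refine mem_filter.mpr ⟨mem_univ _, ?_⟩
      rw [ip_congr (A (e a).1.1) (T (e a).1.1) (hA _) al (dec y) (e a).1.2 h1]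
      exact (hG (e a)).2
    · intro a ha a' ha' heq
      have h1 := (mem_filter.mp ha).2
      have h2 := (mem_filter.mp ha').2
      rw [hcl, not_not] at h1 h2
      apply e.injective
      apply Subtype.ext
      refine Prod.ext heq ?_
      funext j
      by_cases hj : j ∈ T (e a).1.1
      · rw [← h1 j hj]
        exact h2 j (heq ▸ hj)
      · rw [(hG (e a)).1 j hj, (hG (e a')).1 j (fun h => hj (heq ▸ h))]
    · intro i hi
      have h1 := (mem_filter.mp hi).2
      let v : Fin B → Fin b → Bool := fun j => if j ∈ T i then dec y j else fun _ => false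
      have hv : ∀ j ∈ T i, dec y j = v j := fun j hj => by simp [v, hj]
      have hmem : (i, v) ∈ G := by
        rw [hGd]
        refine mem_filter.mpr ⟨mem_filter.mpr ⟨mem_univ _, ?_⟩, ?_⟩
        · intro j hj
          simp only at hj
          simp [v, hj]
        · simp only
          rw [← ip_congr (A i) (T i) (hA i) al (dec y) v hv]
          exact h1
      refine ⟨e.symm ⟨(i, v), hmem⟩, ?_, ?_⟩
      · refine mem_filter.mpr ⟨mem_univ _, ?_⟩
        rw [hcl, not_not, Equiv.apply_symm_apply]
        exact hv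
      · simp only [Equiv.apply_symm_apply]

end Pool.Agent.H58.KX
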