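import Pool.Agent.H96.KX.Targets

/-! # Fixed width linear programs: the number of possible clauses (row NPR) -/

namespace Pool.Agent.H58.KX

open Finset Pool.Agent.H96.KX
open Pool.Agent.H1.LP (Clause viol Relax Loc Sys Agree supp ip kk)

theorem pf_NPR : S_NPR := by
  classical
  intro B R b k T hT
  have hfib : ∀ i ∈ (univ : Finset (Fin R)),
      ((prs (b := b) T).filter (fun q => q.1 = i)).card = 2 ^ (b * k) := by
    intro i _
    have h1 : (prs (b := b) T).filter (fun q => q.1 = i) =
        (Fintype.piFinset (fun j => if j ∈ T i then (univ : Finset (Fin b → Bool)) else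
          {fun _ => false})).image (fun v => (i, v)) := by
      ext ⟨i', v⟩
      simp only [prs, mem_filter, mem_univ, true_and, mem_image, Fintype.mem_piFinset,
        Prod.mk.injEq]
      constructor
      · rintro ⟨h, rfl⟩
        refine ⟨v, fun j => ?_, rfl, rfl⟩
        by_cases hj : j ∈ T i'
        · rw [if_pos hj]; exact mem_univ _
        · rw [if_neg hj, mem_singleton]; exact h j hj
      · rintro ⟨w, hw, rfl, rfl⟩
        refine ⟨fun j hj => ?_, rfl⟩
        have := hw j
        rw [if_neg hj, mem_singleton] at this
        exact this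
    rw [h1, card_image_of_injective _ (fun v w h => (Prod.mk.inj h).2), Fintype.card_piFinset]
    have h2 : ∀ j ∈ (univ : Finset (Fin B)),
        (if j ∈ T i then (univ : Finset (Fin b → Bool)) else {fun _ => false}).card =
        if j ∈ T i then 2 ^ b else 1 := by
      intro j _
      by_cases hj : j ∈ T i
      · rw [if_pos hj, if_pos hj, card_univ, Fintype.card_fun, Fintype.card_bool, Fintype.card_fin]
      · rw [if_neg hj, if_neg hj, card_singleton]
    rw [prod_congr rfl h2, prod_ite, prod_const, prod_const_one, mul_one, pow_mul]
    congr 1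
    rw [filter_mem_eq_inter, univ_inter, hT i]
  rw [card_eq_sum_card_fiberwise (f := Prod.fst) (t := (univ : Finset (Fin R)))
    (fun _ _ => by simp), sum_congr rfl hfib]
  simp

end Pool.Agent.H58.KX
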