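import Pool.Agent.H96.KX.Targets

/-! # Fixed width linear programs: choice of the parameters (row PARM) -/

namespace Pool.Agent.H58.KX

open Finset Pool.Agent.H96.KX
open Pool.Agent.H1.LP (Clause viol Relax Loc Sys Agree supp ip kk)

/-- the exponents -/
lemma expo (e1 E B b n ε ε₁ γ : ℝ) (hE : 16 ≤ E) (hεE : 16 ≤ ε₁ * E) (hε : ε₁ ≤ ε)
    (h1 : ε₁ ≤ 1) (hB : 3 ≤ B) (hbB : b ≤ B) (hb : b = (4 * E + 1) * (E + 1)) (hn0 : 0 ≤ n)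
    (hn : n ≤ b * (B + 1)) (hγ : γ * b = 1) (hγ0 : 0 < γ)
    (he : 4 * (E - 2) * ((E - 8) * B) ≤ e1) :
    (8 * E + 7) * B + (1 - ε) * n ≤ e1 - 3 * (γ * n) := by
  have hb0 : 0 < b := by rw [hb]; positivity
  have hε0 : 0 < ε₁ := by
    by_contra h
    push Not at h
    nlinarith
  have a1 : (1 - ε) * n ≤ (1 - ε₁) * n := mul_le_mul_of_nonneg_right (by linarith) hn0
  have a2 : (1 - ε₁) * n ≤ (1 - ε₁) * (b * (B + 1)) :=
    mul_le_mul_of_nonneg_left hn (by linarith)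
  have a3 : γ * n ≤ B + 1 := by
    calc γ * n ≤ γ * (b * (B + 1)) := mul_le_mul_of_nonneg_left hn hγ0.le
      _ = (γ * b) * (B + 1) := by ring
      _ = B + 1 := by rw [hγ, one_mul]
  have a4 : 64 * E ≤ ε₁ * b := by
    have : ε₁ * b = 4 * (ε₁ * E) * E + 5 * (ε₁ * E) + ε₁ := by rw [hb]; ring
    nlinarith
  have a5 : (1 - ε₁) * (b * (B + 1)) ≤ b * B - ε₁ * b * B + B := by
    have e1' : (1 - ε₁) * (b * (B + 1)) = b * B - ε₁ * b * B + (1 - ε₁) * b := by ring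
    have e2' : (1 - ε₁) * b ≤ 1 * b := mul_le_mul_of_nonneg_right (by linarith) hb0.le
    linarith
  have a6 : 64 * E * B ≤ ε₁ * b * B := mul_le_mul_of_nonneg_right a4 (by linarith)
  have a7 : b * B = 4 * E ^ 2 * B + 5 * E * B + B := by rw [hb]; ring
  have a8 : 4 * (E - 2) * ((E - 8) * B) = 4 * E ^ 2 * B - 40 * E * B + 64 * B := by ring
  have a9 : 0 ≤ E * B := by positivity
  linarith

theorem pf_PARM : S_PARM := by
  intro ε hε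
  obtain ⟨ε₁, hε₁0, hε₁ε, hε₁1⟩ : ∃ ε₁ : ℝ, 0 < ε₁ ∧ ε₁ ≤ ε ∧ ε₁ ≤ 1 :=
    ⟨min ε 1, lt_min hε one_pos, min_le_left _ _, min_le_right _ _⟩
  obtain ⟨E, hE⟩ : ∃ E : ℕ, 16 / ε₁ ≤ E := exists_nat_ge _
  have hεE : 16 ≤ ε₁ * E := by
    rw [div_le_iff₀ hε₁0] at hE
    linarith
  have hE16r : (16 : ℝ) ≤ E := by
    have : ε₁ * (E : ℝ) ≤ 1 * E := mul_le_mul_of_nonneg_right hε₁1 (Nat.cast_nonneg _)
    linarith
  have hE16 : 16 ≤ E := by exact_mod_cast hE16r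
  obtain ⟨b, hb⟩ : ∃ b : ℕ, b = (4 * E + 1) * (E + 1) := ⟨_, rfl⟩
  have hb1 : 1 ≤ b := by
    rw [hb]; exact Nat.one_le_iff_ne_zero.2 (by positivity)
  have hbr : (b : ℝ) = (4 * E + 1) * (E + 1) := by rw [hb]; push_cast; ring
  have hb0r : (0 : ℝ) < b := by exact_mod_cast hb1
  obtain ⟨K, hK⟩ : ∃ K : ℕ, K = 4 * E * 2 ^ (b * kk E) := ⟨_, rfl⟩
  have hE0 : (0 : ℝ) < E := by linarith
  refine ⟨E, E, K, 1 / b, hE16, by omega, ?_, by positivity, ?_⟩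
  · rw [div_le_iff₀ hE0]
    have : ε₁ * (E : ℝ) ≤ ε * E := mul_le_mul_of_nonneg_right hε₁ε hE0.le
    linarith
  refine ⟨b * (9 * K ^ 2 + b + 3 + 2 * kk E), fun n hn => ?_⟩
  obtain ⟨B, hB⟩ : ∃ B : ℕ, B = n / b := ⟨_, rfl⟩
  have hBn : B * b ≤ n := by rw [hB]; exact Nat.div_mul_le_self n b
  have hBge : 9 * K ^ 2 + b + 3 + 2 * kk E ≤ B := by
    rw [hB, Nat.le_div_iff_mul_le (by omega), mul_comm]
    exact hn
  have hBn' : B ≤ n := le_trans (Nat.le_mul_of_pos_right _ (by omega)) hBn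
  have hnB : n < b * (B + 1) := by
    rw [hB]
    exact Nat.lt_mul_div_succ n hb1
  refine ⟨B, by omega, by rw [← hb]; exact hBn, ?_, ?_⟩
  · rw [← hb]
    calc 4 * E * B * 2 ^ (b * kk E) = K * B := by rw [hK]; ring
      _ ≤ K * n := Nat.mul_le_mul_left _ hBn'
  intro W c Y hY hW h
  rw [← hb] at h
  -- reals
  obtain ⟨g, hg⟩ : ∃ g : ℝ, g = (2 : ℝ) ^ (-(1 / (b : ℝ) * n)) := ⟨_, rfl⟩
  have hg0 : 0 < g := by rw [hg]; positivity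
  obtain ⟨e1, he1⟩ : ∃ e1 : ℕ, e1 = 4 * E * (E - 2) * (B - 8 * (B / E)) := ⟨_, rfl⟩
  rw [← hg, ← he1] at h
  rw [← hg]
  have he1' : 4 * ((E : ℝ) - 2) * (((E : ℝ) - 8) * B) ≤ e1 := by
    have d1 : E * (B / E) ≤ B := Nat.mul_div_le B E
    have d2 : (E - 8) * B ≤ E * (B - 8 * (B / E)) := by
      rw [Nat.mul_sub, Nat.sub_mul]
      have : E * (8 * (B / E)) = 8 * (E * (B / E)) := by ring
      rw [this]
      omega
    have d3 : 4 * (E - 2) * ((E - 8) * B) ≤ e1 := by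
      rw [he1]
      calc 4 * (E - 2) * ((E - 8) * B) ≤ 4 * (E - 2) * (E * (B - 8 * (B / E))) :=
            Nat.mul_le_mul_left _ d2
        _ = 4 * E * (E - 2) * (B - 8 * (B / E)) := by ring
    have d4 : ((4 * (E - 2) * ((E - 8) * B) : ℕ) : ℝ) ≤ (e1 : ℝ) := by exact_mod_cast d3
    rw [Nat.cast_mul, Nat.cast_mul, Nat.cast_mul, Nat.cast_sub (by omega : 2 ≤ E),
      Nat.cast_sub (by omega : 8 ≤ E)] at d4
    exact_mod_cast d4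
  have hnr : (n : ℝ) ≤ b * (B + 1) := by exact_mod_cast hnB.le
  have hBr : (3 : ℝ) ≤ B := by
    have : 3 ≤ B := by omega
    exact_mod_cast this
  have hbB : (b : ℝ) ≤ B := by
    have : b ≤ B := by omega
    exact_mod_cast this
  have hexp := expo (e1 : ℝ) E B b n ε ε₁ (1 / b) hE16r hεE hε₁ε hε₁1 hBr hbB hbr
    (Nat.cast_nonneg _) hnr (by field_simp) (by positivity) he1'
  -- the constant
  have hcon : 9 * (4 * (E : ℝ) * B * 2 ^ (b * kk E)) ^ 2 ≤ 2 ^ (3 * B) := by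
    have c1 : 9 * K ^ 2 ≤ 2 ^ B := by
      have := (Nat.lt_two_pow_self (n := B)).le
      omega
    have c2 : B ^ 2 ≤ 2 ^ (2 * B) := by
      have := (Nat.lt_two_pow_self (n := B)).le
      calc B ^ 2 ≤ (2 ^ B) ^ 2 := Nat.pow_le_pow_left this 2
        _ = 2 ^ (2 * B) := by rw [← pow_mul, mul_comm]
    have c3 : 9 * (4 * E * B * 2 ^ (b * kk E)) ^ 2 ≤ 2 ^ (3 * B) := by
      calc 9 * (4 * E * B * 2 ^ (b * kk E)) ^ 2 = (9 * K ^ 2) * B ^ 2 := by rw [hK]; ring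
        _ ≤ 2 ^ B * 2 ^ (2 * B) := Nat.mul_le_mul c1 c2
        _ = 2 ^ (3 * B) := by rw [← pow_add]; congr 1; ring
    exact_mod_cast c3
  have hD : 9 * (4 * (E : ℝ) * B * 2 ^ (b * kk E)) ^ 2 * (2 ^ (4 * E + 1)) ^ (2 * B) * 4 ^ B *
      (2 : ℝ) ^ ((1 - ε) * n) ≤ g ^ 2 * 2 ^ e1 * g := by
    have r1 : (2 : ℝ) ^ (3 * B) * (2 ^ (4 * E + 1)) ^ (2 * B) * 4 ^ B * (2 : ℝ) ^ ((1 - ε) * n) =
        (2 : ℝ) ^ ((8 * (E : ℝ) + 7) * B + (1 - ε) * n) := by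
      have q1 : (2 : ℝ) ^ (3 * B) * (2 ^ (4 * E + 1)) ^ (2 * B) * 4 ^ B =
          (2 : ℝ) ^ ((8 * E + 7) * B) := by
        have : (4 : ℝ) = 2 ^ 2 := by norm_num
        rw [this, ← pow_mul, ← pow_mul, ← pow_add, ← pow_add]
        congr 1
        ring
      rw [q1, Real.rpow_add two_pos, ← Real.rpow_natCast]
      congr 2
      push_cast
      ring
    have r2 : g ^ 2 * 2 ^ e1 * g = (2 : ℝ) ^ ((e1 : ℝ) - 3 * (1 / (b : ℝ) * n)) := by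
      have q2 : g ^ 2 * 2 ^ e1 * g = 2 ^ e1 * g ^ 3 := by ring
      rw [q2, hg, ← Real.rpow_natCast, ← Real.rpow_natCast, ← Real.rpow_mul (by norm_num),
        ← Real.rpow_add two_pos]
      congr 1
      push_cast
      ring
    rw [r2]
    calc 9 * (4 * (E : ℝ) * B * 2 ^ (b * kk E)) ^ 2 * (2 ^ (4 * E + 1)) ^ (2 * B) * 4 ^ B *
          (2 : ℝ) ^ ((1 - ε) * n) ≤
        (2 : ℝ) ^ (3 * B) * (2 ^ (4 * E + 1)) ^ (2 * B) * 4 ^ B * (2 : ℝ) ^ ((1 - ε) * n) := by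
          gcongr
      _ = (2 : ℝ) ^ ((8 * (E : ℝ) + 7) * B + (1 - ε) * n) := r1
      _ ≤ (2 : ℝ) ^ ((e1 : ℝ) - 3 * (1 / (b : ℝ) * n)) :=
          Real.rpow_le_rpow_of_exponent_le one_le_two hexp
  have hfin : g ^ 2 * 2 ^ e1 * c ≤ g ^ 2 * 2 ^ e1 * (g * Y) := by
    calc g ^ 2 * 2 ^ e1 * c = g ^ 2 * c * 2 ^ e1 := by ring
      _ ≤ 9 * (4 * (E : ℝ) * B * 2 ^ (b * kk E)) ^ 2 * (2 ^ (4 * E + 1)) ^ (2 * B) * 4 ^ B *
          W * Y := h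
      _ ≤ 9 * (4 * (E : ℝ) * B * 2 ^ (b * kk E)) ^ 2 * (2 ^ (4 * E + 1)) ^ (2 * B) * 4 ^ B *
          (2 : ℝ) ^ ((1 - ε) * n) * Y := by gcongr
      _ ≤ (g ^ 2 * 2 ^ e1 * g) * Y := mul_le_mul_of_nonneg_right hD hY
      _ = g ^ 2 * 2 ^ e1 * (g * Y) := by ring
  exact le_of_mul_le_mul_left hfin (by positivity)

end Pool.Agent.H58.KX
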